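import Pool.Agent.Helper44_GB.Sfb

/-!
Squad GB, module SSB: the directions of strict sublinearity.
-/

namespace Pool.Agent.GB.H44

open MeasureTheory Complex Filter Topology Pool.Agent.H62T Pool.Agent.H16F

theorem dt_cont_l (v : ℂ) : Continuous fun u => dt u v := by
  unfold dt
  fun_prop

theorem dt_cont_r (v : ℂ) : Continuous fun u => dt v u := by
  unfold dt
  fun_prop

theorem dt_self (v : ℂ) : dt v v = 0 := by
  unfold dt
  ring

theorem dt_decomp (u v w : ℂ) (h : dt v w ≠ 0) :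
    u = ((dt u w / dt v w : ℝ) : ℂ) * v + ((dt v u / dt v w : ℝ) : ℂ) * w := by
  apply Complex.ext
  · simp only [Complex.add_re, Complex.re_ofReal_mul]
    field_simp
    unfold dt
    ring
  · simp only [Complex.add_im, Complex.im_ofReal_mul]
    field_simp
    unfold dt
    ring

section

variable {h : ℂ → ℝ} (hs : Sublin h)

include hs

/-- linearity on a cone -/
theorem lin_cone {v w : ℂ} (he : h (v + w) = h v + h w) {a b : ℝ} (ha : 0 ≤ a) (hb : 0 ≤ b) :
    h ((a : ℂ) * v + (b : ℂ) * w) = a * h v + b * h w := by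
  apply le_antisymm
  · calc h ((a : ℂ) * v + (b : ℂ) * w) ≤ h ((a : ℂ) * v) + h ((b : ℂ) * w) := hs.1 _ _
      _ = _ := by rw [hs.2 a v ha, hs.2 b w hb]
  · set C := a + b with hC
    have h1 : h ((C : ℂ) * (v + w)) = C * h (v + w) := hs.2 C _ (by positivity)
    have h2 : (C : ℂ) * (v + w) = ((a : ℂ) * v + (b : ℂ) * w) + (((b : ℝ) : ℂ) * v
        + ((a : ℝ) : ℂ) * w) := by
      rw [hC]
      push_cast
      ring
    have h3 := hs.1 ((a : ℂ) * v + (b : ℂ) * w) ((b : ℂ) * v + (a : ℂ) * w)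
    have h4 := hs.1 ((b : ℂ) * v) ((a : ℂ) * w)
    rw [hs.2 b v hb, hs.2 a w ha] at h4
    rw [← h2, h1, he] at h3
    rw [hC] at h3
    nlinarith

theorem ss_closed : IsClosed (SS h) := by
  rw [← isOpen_compl_iff, isOpen_iff_mem_nhds]
  intro u₀ hu₀
  by_cases hn : ‖u₀‖ = 1
  · have h1 : ∃ v, dt u₀ v ≠ 0 ∧ h v + h (u₀ - v) ≤ h u₀ := by
      by_contra hcon
      push Not at hcon
      exact hu₀ ⟨hn, hcon⟩
    obtain ⟨v, hd, hle⟩ := h1
    set w := u₀ - v with hw
    have hvw : v + w = u₀ := by rw [hw]; ring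
    have he : h (v + w) = h v + h w := by
      apply le_antisymm (hs.1 v w)
      rw [hvw]
      exact hle
    have hdw : dt v w ≠ 0 := by
      have : dt v w = -dt u₀ v := by
        rw [hw]
        unfold dt
        simp only [Complex.sub_re, Complex.sub_im]
        ring
      rw [this]
      exact neg_ne_zero.mpr hd
    have c1 : Continuous fun u => dt u w / dt v w := (dt_cont_l w).div_const _
    have c2 : Continuous fun u => dt v u / dt v w := (dt_cont_r v).div_const _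
    have e1 : (0 : ℝ) < dt u₀ w / dt v w := by
      have : dt u₀ w = dt v w := by
        rw [← hvw]
        unfold dt
        simp only [Complex.add_re, Complex.add_im]
        ring
      rw [this, div_self hdw]
      exact one_pos
    have e2 : (0 : ℝ) < dt v u₀ / dt v w := by
      have : dt v u₀ = dt v w := by
        rw [← hvw]
        unfold dt
        simp only [Complex.add_re, Complex.add_im]
        ring
      rw [this, div_self hdw]
      exact one_pos
    filter_upwards [c1.continuousAt.eventually_const_lt e1,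
      c2.continuousAt.eventually_const_lt e2] with u f1 f2
    intro hu
    set a := dt u w / dt v w with ha
    set b := dt v u / dt v w with hb
    have hdec : u = (a : ℂ) * v + (b : ℂ) * w := dt_decomp u v w hdw
    have h3 := hu.2 ((a : ℂ) * v) (by
      have : dt u ((a : ℂ) * v) = -(a * b * dt v w) := by
        rw [hdec]
        unfold dt
        simp only [Complex.add_re, Complex.add_im, Complex.re_ofReal_mul, Complex.im_ofReal_mul]
        ring
      rw [this]
      exact neg_ne_zero.mpr (mul_ne_zero (mul_ne_zero f1.ne' f2.ne') hdw))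
    have h4 : u - (a : ℂ) * v = (b : ℂ) * w := by
      rw [hdec]
      ring
    rw [h4, hs.2 a v f1.le, hs.2 b w f2.le] at h3
    have h5 := lin_cone hs he f1.le f2.le
    rw [← hdec] at h5
    linarith
  · have h1 : {u : ℂ | ‖u‖ ≠ 1} ∈ 𝓝 u₀ :=
      (isOpen_ne_fun continuous_norm continuous_const).mem_nhds hn
    filter_upwards [h1] with u hu hu'
    exact hu hu'.1

end

theorem ss_compact {h : ℂ → ℝ} (hs : SF h) : IsCompact (SS h) := by
  refine (isCompact_sphere (0 : ℂ) 1).of_isClosed_subset (ss_closed hs.sub) ?_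
  intro u hu
  simpa using hu.1

/-- the polar body -/
theorem polar_compact {h : ℂ → ℝ} (hs : SF h) : IsCompact {u : ℂ | h u ≤ 1} := by
  obtain ⟨r, ρ, hr, hb⟩ := sf_bounds hs
  refine Metric.isCompact_of_isClosed_isBounded (isClosed_le (sf_cont hs) continuous_const) ?_
  refine (Metric.isBounded_closedBall (x := (0 : ℂ)) (r := 1 / r)).subset fun x hx => ?_
  rw [Metric.mem_closedBall, dist_zero_right]
  by_cases h0 : x = 0
  · rw [h0, norm_zero]
    positivity
  · obtain ⟨v, hv, he, hp⟩ := unit_of h0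
    have h1 : h x = ‖x‖ * h v := by
      conv_lhs => rw [← he]
      exact hs.sub.2 ‖x‖ v hp.le
    have h2 : h x ≤ 1 := hx
    rw [h1] at h2
    rw [le_div_iff₀ hr]
    have := (hb v hv).1
    nlinarith

theorem polar_convex {h : ℂ → ℝ} (hs : Sublin h) : Convex ℝ {u : ℂ | h u ≤ 1} := by
  intro x hx y hy a b ha hb hab
  have h1 : h x ≤ 1 := hx
  have h2 : h y ≤ 1 := hy
  show h (a • x + b • y) ≤ 1
  have h3 := hs.1 (a • x) (b • y)
  rw [Complex.real_smul, Complex.real_smul, hs.2 a x ha, hs.2 b y hb] at h3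
  rw [Complex.real_smul, Complex.real_smul]
  nlinarith [mul_le_mul_of_nonneg_left h1 ha, mul_le_mul_of_nonneg_left h2 hb]

/-- extreme points of the polar body -/
theorem ext_polar {h : ℂ → ℝ} (hs : SF h) {e : ℂ}
    (he : e ∈ ({u : ℂ | h u ≤ 1} : Set ℂ).extremePoints ℝ) :
    h e = 1 ∧ ∃ u ∈ SS h, ∃ c : ℝ, 0 < c ∧ e = (c : ℂ) * u := by
  rw [mem_extremePoints] at he
  obtain ⟨heB, hext⟩ := he
  have heB' : h e ≤ 1 := heB
  have h00 : h 0 = 0 := sf_zero hs
  have e0 : e ≠ 0 := by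
    rintro rfl
    have p1 := hs.pos 1 one_ne_zero
    have p2 := hs.pos (-1) (neg_ne_zero.mpr one_ne_zero)
    set δ : ℝ := 1 / (h 1 + h (-1)) with hδ
    have hδ0 : 0 < δ := by positivity
    have m1 : ((δ : ℂ) * 1) ∈ ({u : ℂ | h u ≤ 1} : Set ℂ) := by
      show h ((δ : ℂ) * 1) ≤ 1
      rw [hs.sub.2 δ 1 hδ0.le, hδ, one_div_mul_eq_div, div_le_one (by positivity)]
      linarith
    have m2 : ((δ : ℂ) * (-1)) ∈ ({u : ℂ | h u ≤ 1} : Set ℂ) := by
      show h ((δ : ℂ) * (-1)) ≤ 1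
      rw [hs.sub.2 δ (-1) hδ0.le, hδ, one_div_mul_eq_div, div_le_one (by positivity)]
      linarith
    have m3 : (0 : ℂ) ∈ openSegment ℝ ((δ : ℂ) * 1) ((δ : ℂ) * (-1)) := by
      refine ⟨1 / 2, 1 / 2, by norm_num, by norm_num, by norm_num, ?_⟩
      rw [Complex.real_smul, Complex.real_smul]
      ring
    have m4 := (hext _ m1 _ m2 m3).1
    rw [mul_one] at m4
    exact hδ0.ne' (by exact_mod_cast m4)
  have hpos := hs.pos e e0
  have h1 : h e = 1 := by
    by_contra hne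
    have hlt : h e < 1 := lt_of_le_of_ne heB' hne
    have hc : (h e : ℂ) ≠ 0 := by exact_mod_cast hpos.ne'
    have m1 : (((h e)⁻¹ : ℝ) : ℂ) * e ∈ ({u : ℂ | h u ≤ 1} : Set ℂ) := by
      show h ((((h e)⁻¹ : ℝ) : ℂ) * e) ≤ 1
      rw [hs.sub.2 _ e (by positivity), inv_mul_cancel₀ hpos.ne']
    have m2 : (0 : ℂ) ∈ ({u : ℂ | h u ≤ 1} : Set ℂ) := by
      show h 0 ≤ 1
      rw [h00]
      exact zero_le_one
    have m3 : e ∈ openSegment ℝ ((((h e)⁻¹ : ℝ) : ℂ) * e) 0 := by
      refine ⟨h e, 1 - h e, hpos, by linarith, by ring, ?_⟩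
      rw [Complex.real_smul, smul_zero, add_zero]
      push_cast
      field_simp
    exact e0 ((hext _ m1 _ m2 m3).2).symm
  refine ⟨h1, ?_⟩
  obtain ⟨u, hu, hue, hn⟩ := unit_of e0
  refine ⟨u, ⟨hu, fun v hd => ?_⟩, ‖e‖, hn, hue.symm⟩
  by_contra hcon
  push Not at hcon
  set c := ‖e‖ with hc
  set v1 : ℂ := (c : ℂ) * v with hv1
  set w1 : ℂ := (c : ℂ) * (u - v) with hw1
  have hcc : (c : ℂ) ≠ 0 := by exact_mod_cast hn.ne'
  have hsum : v1 + w1 = e := by
    rw [hv1, hw1, ← hue]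
    ring
  have hv0 : v ≠ 0 := by
    rintro rfl
    apply hd
    simp [dt]
  have hw0 : u - v ≠ 0 := by
    intro h0
    apply hd
    rw [sub_eq_zero.mp h0]
    exact dt_self v
  have hv10 : v1 ≠ 0 := mul_ne_zero hcc hv0
  have hw10 : w1 ≠ 0 := mul_ne_zero hcc hw0
  have pv := hs.pos v1 hv10
  have pw := hs.pos w1 hw10
  have hle : h v1 + h w1 ≤ 1 := by
    rw [hv1, hw1, hs.sub.2 c v hn.le, hs.sub.2 c (u - v) hn.le, ← h1, ← hue,
      hs.sub.2 c u hn.le]
    have := mul_le_mul_of_nonneg_left hcon hn.le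
    linarith
  have hge : 1 ≤ h v1 + h w1 := by
    rw [← h1, ← hsum]
    exact hs.sub.1 v1 w1
  have heq : h v1 + h w1 = 1 := le_antisymm hle hge
  have m1 : (((h v1)⁻¹ : ℝ) : ℂ) * v1 ∈ ({u : ℂ | h u ≤ 1} : Set ℂ) := by
    show h ((((h v1)⁻¹ : ℝ) : ℂ) * v1) ≤ 1
    rw [hs.sub.2 _ v1 (by positivity), inv_mul_cancel₀ pv.ne']
  have m2 : (((h w1)⁻¹ : ℝ) : ℂ) * w1 ∈ ({u : ℂ | h u ≤ 1} : Set ℂ) := by
    show h ((((h w1)⁻¹ : ℝ) : ℂ) * w1) ≤ 1
    rw [hs.sub.2 _ w1 (by positivity), inv_mul_cancel₀ pw.ne']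
  have c1 : (h v1 : ℂ) ≠ 0 := by exact_mod_cast pv.ne'
  have c2 : (h w1 : ℂ) ≠ 0 := by exact_mod_cast pw.ne'
  have m3 : e ∈ openSegment ℝ ((((h v1)⁻¹ : ℝ) : ℂ) * v1) ((((h w1)⁻¹ : ℝ) : ℂ) * w1) := by
    refine ⟨h v1, h w1, pv, pw, heq, ?_⟩
    rw [Complex.real_smul, Complex.real_smul, ← hsum]
    push_cast
    field_simp
  have m4 := (hext _ m1 _ m2 m3).1
  -- `v1` is parallel to `e`
  apply hd
  have m5 : v1 = ((h v1 : ℝ) : ℂ) * e := by
    rw [← m4]
    push_cast
    field_simp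
  have m6 : (c : ℂ) * v = ((h v1 : ℝ) : ℂ) * ((c : ℂ) * u) := by
    rw [hue, ← m5]
  have m7 : v = ((h v1 : ℝ) : ℂ) * u := by
    have : (c : ℂ) * v = (c : ℂ) * (((h v1 : ℝ) : ℂ) * u) := by
      rw [m6]
      ring
    exact mul_left_cancel₀ hcc this
  rw [m7]
  unfold dt
  simp only [Complex.re_ofReal_mul, Complex.im_ofReal_mul]
  ring

/-- module SSB -/
theorem ssb : SsbStatement := by
  intro h hs
  refine ⟨ss_compact hs, fun x hx => ?_⟩
  set B : Set ℂ := {u : ℂ | h u ≤ 1} with hB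
  set Hx : Set ℂ := {u : ℂ | ip u x ≤ 1} with hHx
  have hcl : IsClosed Hx := isClosed_le (ip_cont_l x) continuous_const
  have hcv : Convex ℝ Hx := by
    intro a ha b hb s t hs0 ht0 hst
    have h1 : ip a x ≤ 1 := ha
    have h2 : ip b x ≤ 1 := hb
    show ip (s • a + t • b) x ≤ 1
    rw [ip_add_l, Complex.real_smul, Complex.real_smul, ip_mul_l, ip_mul_l]
    nlinarith [mul_le_mul_of_nonneg_left h1 hs0, mul_le_mul_of_nonneg_left h2 ht0]
  have hext : B.extremePoints ℝ ⊆ Hx := by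
    intro e he
    obtain ⟨h1, u, hu, c, hc, hec⟩ := ext_polar hs he
    show ip e x ≤ 1
    rw [← h1, hec, ip_mul_l, hs.sub.2 c u hc.le]
    exact mul_le_mul_of_nonneg_left (hx u hu) hc.le
  have hsub : B ⊆ Hx := by
    have hkm : closure (convexHull ℝ (B.extremePoints ℝ)) = B :=
      closure_convexHull_extremePoints (polar_compact hs) (polar_convex hs.sub)
    rw [← hkm]
    exact closure_minimal (convexHull_min hext hcv) hcl
  intro u
  by_cases hu : u = 0
  · rw [hu, ip_zero_l, sf_zero hs]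
  · have hpos := hs.pos u hu
    have m1 : (((h u)⁻¹ : ℝ) : ℂ) * u ∈ B := by
      show h ((((h u)⁻¹ : ℝ) : ℂ) * u) ≤ 1
      rw [hs.sub.2 _ u (by positivity), inv_mul_cancel₀ hpos.ne']
    have m2 : ip ((((h u)⁻¹ : ℝ) : ℂ) * u) x ≤ 1 := hsub m1
    rw [ip_mul_l, inv_mul_le_iff₀ hpos, mul_one] at m2
    exact m2

end Pool.Agent.GB.H44
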