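import Pool.Agent.Helper62_GB.Stmt

/-!
Squad GB, module CMON: the number of cyclic runs does not increase under restriction.
-/

namespace Pool.Agent.GB.H44

open Pool.Agent.H16F

theorem ofNat_add' (n : ℕ) [NeZero n] (a b : ℕ) :
    Fin.ofNat n (a + b) = Fin.ofNat n a + Fin.ofNat n b := by
  ext
  simp [Fin.val_add]

theorem ofNat_self' (n : ℕ) [NeZero n] : Fin.ofNat n n = 0 := by
  ext
  simp

theorem ofNat_one' (n : ℕ) [NeZero n] : Fin.ofNat n 1 = 1 := by
  ext
  simp

theorem ofNat_val' (n : ℕ) [NeZero n] (j : Fin n) : Fin.ofNat n (j : ℕ) = j := by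
  ext
  simp

theorem ind_nonneg (p : Prop) : 0 ≤ ind p := by
  unfold ind
  split_ifs <;> norm_num

theorem ind_le (p : Prop) : ind p ≤ 1 := by
  unfold ind
  split_ifs <;> norm_num

/-- exits of a 0-1 sequence -/
def ex (g : ℕ → ℝ) (j : ℕ) : ℝ := g j * (1 - g (j + 1))

theorem ex_nonneg {g : ℕ → ℝ} (h0 : ∀ j, 0 ≤ g j) (h1 : ∀ j, g j ≤ 1) (j : ℕ) : 0 ≤ ex g j :=
  mul_nonneg (h0 j) (by linarith [h1 (j + 1)])

/-- the exit between two positions -/
theorem ex_le {g : ℕ → ℝ} (h0 : ∀ j, 0 ≤ g j) (h1 : ∀ j, g j ≤ 1) (p : ℕ) :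
    ∀ q, p < q → g p * (1 - g q) ≤ ∑ j ∈ Finset.Ico p q, ex g j := by
  intro q hq
  induction q, hq using Nat.le_induction with
  | base => simp [ex]
  | succ q hq ih =>
    rw [Finset.sum_Ico_succ_top (by omega)]
    have e : g p * (1 - g (q + 1)) ≤ g p * (1 - g q) + g q * (1 - g (q + 1)) := by
      nlinarith [h0 p, h1 p, h0 q, h1 q, h0 (q + 1), h1 (q + 1),
        mul_nonneg (sub_nonneg.mpr (h1 p)) (mul_nonneg (h0 q) (sub_nonneg.mpr (h1 (q + 1)))),
        mul_nonneg (h0 p) (mul_nonneg (sub_nonneg.mpr (h1 q)) (h0 (q + 1)))]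
    unfold ex at ih ⊢
    linarith

theorem sum_period {N : ℕ} {e : ℕ → ℝ} (he : ∀ j, e (j + N) = e j) (a : ℕ) :
    ∑ j ∈ Finset.Ico a (a + N), e j = ∑ j ∈ Finset.range N, e j := by
  induction a with
  | zero => rw [zero_add, Finset.range_eq_Ico]
  | succ a ih =>
    rcases Nat.eq_zero_or_pos N with h | h
    · subst h
      simp
    · rw [← ih]
      have h1 : ∑ j ∈ Finset.Ico a (a + N + 1), e j = ∑ j ∈ Finset.Ico a (a + N), e j + e (a + N) :=
        Finset.sum_Ico_succ_top (by omega) e
      have h2 : ∑ j ∈ Finset.Ico a (a + N + 1), e j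
          = e a + ∑ j ∈ Finset.Ico (a + 1) (a + N + 1), e j :=
        Finset.sum_eq_sum_Ico_succ_bot (by omega) e
      have h3 : a + 1 + N = a + N + 1 := by omega
      have h4 := he a
      rw [h3]
      linarith

/-- the 0-1 sequence of a set -/
noncomputable def sq {n : ℕ} [NeZero n] (T : Set (Fin n)) (j : ℕ) : ℝ := ind (Fin.ofNat n j ∈ T)

theorem sq_period {n : ℕ} [NeZero n] (T : Set (Fin n)) (j : ℕ) : sq T (j + n) = sq T j := by
  unfold sq
  rw [ofNat_add', ofNat_self', add_zero]

theorem cm_eq {n : ℕ} [NeZero n] (T : Set (Fin n)) :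
    cm T = ind (∀ i, i ∈ T) + ∑ j ∈ Finset.range n, ex (sq T) j - 1 := by
  unfold cm
  have e : ∑ j ∈ Finset.range n, ex (sq T) j
      = ∑ i : Fin n, (ind (i ∈ T) - ind (i ∈ T ∧ i + 1 ∈ T)) := by
    rw [← Fin.sum_univ_eq_sum_range (fun j => ex (sq T) j) n]
    refine Finset.sum_congr rfl fun i _ => ?_
    unfold ex sq
    rw [ofNat_add', ofNat_one', ofNat_val']
    unfold ind
    by_cases h1 : i ∈ T <;> by_cases h2 : i + 1 ∈ T <;> simp [h1, h2]
  rw [e, Finset.sum_sub_distrib]
  ring

theorem cmon' (M N : ℕ) [NeZero M] [NeZero N] (hM1 : 1 < M) (ι : Fin M → Fin N)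
    (hι : StrictMono ι) (T : Set (Fin N)) : cm (ι ⁻¹' T) ≤ cm T := by
  rw [cm_eq, cm_eq]
  set g := sq T with hg
  have g0 : ∀ j, 0 ≤ g j := fun j => ind_nonneg _
  have g1 : ∀ j, g j ≤ 1 := fun j => ind_le _
  have hper : ∀ j, ex g (j + N) = ex g j := by
    intro j
    unfold ex
    have h1 : j + N + 1 = (j + 1) + N := by omega
    rw [h1, hg, sq_period T, sq_period T]
  have enn : ∀ j, 0 ≤ ex g j := ex_nonneg g0 g1
  -- the positions
  set P : ℕ → ℕ := fun i => (ι (Fin.ofNat M i)).val + N * (i / M) with hP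
  have hMpos : 0 < M := by omega
  have hNpos : 0 < N := Nat.pos_of_ne_zero (NeZero.ne N)
  have hstep : ∀ i, P i < P (i + 1) := by
    intro i
    simp only [hP]
    rcases Nat.lt_or_ge (i % M + 1) M with h | h
    · have h1 : (i + 1) / M = i / M := by
        apply Nat.succ_div_of_not_dvd
        intro hd
        have h3 : (i + 1) % M = i % M + 1 := by
          rw [Nat.add_mod, Nat.mod_eq_of_lt hM1, Nat.mod_eq_of_lt h]
        have h4 := Nat.mod_eq_zero_of_dvd hd
        omega
      have h2 : Fin.ofNat M i < Fin.ofNat M (i + 1) := by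
        rw [Fin.lt_def]
        simp only [Fin.val_ofNat]
        rw [Nat.add_mod i 1 M, Nat.mod_eq_of_lt hM1, Nat.mod_eq_of_lt h]
        omega
      have h3 := hι h2
      rw [Fin.lt_def] at h3
      rw [h1]
      omega
    · have h0 : i % M + 1 = M := by
        have := Nat.mod_lt i hMpos
        omega
      have h1 : (i + 1) / M = i / M + 1 := by
        apply Nat.succ_div_of_dvd
        have h2 := Nat.mod_add_div i M
        exact ⟨i / M + 1, by rw [mul_add, mul_one]; omega⟩
      have h2 := (ι (Fin.ofNat M i)).isLt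
      rw [h1, mul_add, mul_one]
      omega
  have hmono : Monotone P := monotone_nat_of_le_succ fun i => (hstep i).le
  have hPM : P M = P 0 + N := by
    simp only [hP]
    rw [ofNat_self', Nat.div_self hMpos, Nat.zero_div]
    have : (Fin.ofNat M 0) = 0 := by ext; simp
    rw [this]
    omega
  have hsq : ∀ i, sq (ι ⁻¹' T) i = g (P i) := by
    intro i
    simp only [hg, hP]
    unfold sq
    have : Fin.ofNat N ((ι (Fin.ofNat M i)).val + N * (i / M)) = ι (Fin.ofNat M i) := by
      ext
      simp only [Fin.val_ofNat]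
      rw [Nat.add_mul_mod_self_left, Nat.mod_eq_of_lt (ι (Fin.ofNat M i)).isLt]
    rw [this]
    rfl
  have hle : ∑ j ∈ Finset.range M, ex (sq (ι ⁻¹' T)) j ≤ ∑ j ∈ Finset.range N, ex g j := by
    have h1 : ∀ i ∈ Finset.range M, ex (sq (ι ⁻¹' T)) i
        ≤ ∑ j ∈ Finset.Ico (P i) (P (i + 1)), ex g j := by
      intro i _
      have := ex_le g0 g1 (P i) (P (i + 1)) (hstep i)
      unfold ex at this ⊢
      rw [hsq, hsq]
      exact this
    refine (Finset.sum_le_sum h1).trans ?_
    have h2 : ∀ K, ∑ i ∈ Finset.range K, ∑ j ∈ Finset.Ico (P i) (P (i + 1)), ex g j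
        = ∑ j ∈ Finset.Ico (P 0) (P K), ex g j := by
      intro K
      induction K with
      | zero => simp
      | succ K ih =>
        rw [Finset.sum_range_succ, ih,
          Finset.sum_Ico_consecutive _ (hmono (Nat.zero_le K)) (hstep K).le]
    rw [h2, hPM, sum_period hper]
  by_cases hall : ∀ i, i ∈ ι ⁻¹' T
  · -- all visited
    have e1 : ∑ j ∈ Finset.range M, ex (sq (ι ⁻¹' T)) j = 0 := by
      refine Finset.sum_eq_zero fun j _ => ?_
      unfold ex sq ind
      rw [if_pos (hall _), if_pos (hall _)]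
      ring
    have e2 : ind (∀ i, i ∈ ι ⁻¹' T) = 1 := by
      unfold ind
      rw [if_pos hall]
    rw [e1, e2]
    by_cases hT : ∀ i, i ∈ T
    · have e3 : ind (∀ i, i ∈ T) = 1 := by
        unfold ind
        rw [if_pos hT]
      rw [e3]
      have := Finset.sum_nonneg fun j (_ : j ∈ Finset.range N) => enn j
      linarith
    · have e3 := ind_nonneg (∀ i, i ∈ T)
      push Not at hT
      obtain ⟨q, hq⟩ := hT
      set p := (ι 0).val with hp
      have hp1 : g p = 1 := by
        simp only [hg]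
        unfold sq ind
        rw [hp, ofNat_val']
        exact if_pos (hall 0)
      -- a position after `p` which is not visited
      obtain ⟨r, hr1, hr2, hr3⟩ : ∃ r, p < r ∧ r ≤ p + N ∧ g r = 0 := by
        have hq0 : g q.val = 0 := by
          simp only [hg]
          unfold sq ind
          rw [ofNat_val', if_neg hq]
        have hpl : p < N := (ι 0).isLt
        have hql : q.val < N := q.isLt
        rcases lt_trichotomy p q.val with h | h | h
        · exact ⟨q.val, h, by omega, hq0⟩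
        · rw [← h, hp1] at hq0
          exact absurd hq0 one_ne_zero
        · exact ⟨q.val + N, by omega, by omega, by rw [hg, sq_period]; exact hq0⟩
      have h4 := ex_le g0 g1 p r hr1
      rw [hp1, hr3] at h4
      have h5 : ∑ j ∈ Finset.Ico p r, ex g j ≤ ∑ j ∈ Finset.Ico p (p + N), ex g j :=
        Finset.sum_le_sum_of_subset_of_nonneg (Finset.Ico_subset_Ico le_rfl hr2)
          fun j _ _ => enn j
      rw [sum_period hper] at h5
      linarith
  · have e2 : ind (∀ i, i ∈ ι ⁻¹' T) = 0 := by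
      unfold ind
      rw [if_neg hall]
    have e3 := ind_nonneg (∀ i, i ∈ T)
    rw [e2]
    linarith

/-- module CMON -/
theorem cmon : CmonStatement := fun m n ι hι T =>
  cmon' (m + 3) (n + 3) (by omega) ι hι T

end Pool.Agent.GB.H44
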