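import Pool.Agent.Helper62_GB.Stmt
import Pool.Agent.Helper69_AEU.Tools

/-!
Squad GB, module SFB: support functions of bounded convex domains.
-/

namespace Pool.Agent.GB.H44

open MeasureTheory Complex Filter Topology Pool.Agent.H62T Pool.Agent.H16F

theorem ip_add_r (u x y : ℂ) : ip u (x + y) = ip u x + ip u y := by
  unfold ip
  simp only [Complex.add_re, Complex.add_im]
  ring

theorem ip_add_l (u v x : ℂ) : ip (u + v) x = ip u x + ip v x := by
  unfold ip
  simp only [Complex.add_re, Complex.add_im]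
  ring

theorem ip_sub_r (u x y : ℂ) : ip u (x - y) = ip u x - ip u y := by
  unfold ip
  simp only [Complex.sub_re, Complex.sub_im]
  ring

theorem ip_mul_r (u x : ℂ) (s : ℝ) : ip u ((s : ℂ) * x) = s * ip u x := by
  unfold ip
  simp only [Complex.re_ofReal_mul, Complex.im_ofReal_mul]
  ring

theorem ip_mul_l (u x : ℂ) (s : ℝ) : ip ((s : ℂ) * u) x = s * ip u x := by
  unfold ip
  simp only [Complex.re_ofReal_mul, Complex.im_ofReal_mul]
  ring

theorem ip_zero_r (u : ℂ) : ip u 0 = 0 := by simp [ip]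

theorem ip_zero_l (u : ℂ) : ip 0 u = 0 := by simp [ip]

theorem ip_self (u : ℂ) : ip u u = ‖u‖ ^ 2 := by
  rw [← Complex.normSq_eq_norm_sq, Complex.normSq_apply]
  rfl

theorem ip_le_norm (u x : ℂ) : ip u x ≤ ‖u‖ * ‖x‖ := by
  have h1 : ip u x ^ 2 + dt u x ^ 2 = ‖u‖ ^ 2 * ‖x‖ ^ 2 := by
    rw [← Complex.normSq_eq_norm_sq, ← Complex.normSq_eq_norm_sq, Complex.normSq_apply,
      Complex.normSq_apply]
    unfold ip dt
    ring
  refine le_of_sq_le_sq ?_ (by positivity)
  nlinarith [sq_nonneg (dt u x)]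
where
  le_of_sq_le_sq {a b : ℝ} (h : a ^ 2 ≤ b ^ 2) (hb : 0 ≤ b) : a ≤ b := by
    by_contra hc
    push Not at hc
    nlinarith

theorem ip_cont_r (u : ℂ) : Continuous fun x => ip u x := by
  unfold ip
  fun_prop

theorem ip_cont_l (x : ℂ) : Continuous fun u => ip u x := by
  unfold ip
  fun_prop

/-- every nonzero vector is a positive multiple of a unit vector -/
theorem unit_of {u : ℂ} (hu : u ≠ 0) :
    ∃ v : ℂ, ‖v‖ = 1 ∧ (‖u‖ : ℂ) * v = u ∧ 0 < ‖u‖ := by
  have h1 : 0 < ‖u‖ := norm_pos_iff.mpr hu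
  have h2 : (‖u‖ : ℂ) ≠ 0 := by exact_mod_cast h1.ne'
  refine ⟨u / ‖u‖, ?_, by field_simp, h1⟩
  rw [norm_div, Complex.norm_real, norm_norm, div_self h1.ne']

section basic

variable {h : ℂ → ℝ} (hs : SF h)

include hs

theorem sf_cont : Continuous h := (AEU.H69.sup h hs.sub).2.1

theorem sf_zero : h 0 = 0 := (AEU.H69.sup h hs.sub).1

theorem sf_bounds : ∃ r ρ : ℝ, 0 < r ∧ ∀ u, ‖u‖ = 1 → r ≤ h u ∧ h u ≤ ρ := by
  have hc : IsCompact (Metric.sphere (0 : ℂ) 1) := isCompact_sphere 0 1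
  have hne : (Metric.sphere (0 : ℂ) 1).Nonempty := ⟨1, by simp⟩
  obtain ⟨a, ha, hmin⟩ := hc.exists_isMinOn hne (sf_cont hs).continuousOn
  obtain ⟨b, hb, hmax⟩ := hc.exists_isMaxOn hne (sf_cont hs).continuousOn
  have ha' : ‖a‖ = 1 := by simpa using ha
  refine ⟨h a, h b, hs.pos a (by intro h0; rw [h0] at ha'; simp at ha'), fun u hu => ?_⟩
  have hm : u ∈ Metric.sphere (0 : ℂ) 1 := by simpa using hu
  exact ⟨hmin hm, hmax hm⟩

/-- it is enough to test with unit vectors -/
theorem mem_bd_iff (x : ℂ) : x ∈ Bd h ↔ ∀ u, ‖u‖ = 1 → ip u x < h u := by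
  constructor
  · intro hx u hu
    exact hx u (by intro h0; rw [h0] at hu; simp at hu)
  · intro hx u hu
    obtain ⟨v, hv, he, hp⟩ := unit_of hu
    have h1 := hx v hv
    rw [← he, ip_mul_l, hs.sub.2 ‖u‖ v hp.le]
    exact mul_lt_mul_of_pos_left h1 hp

theorem bd_zero : (0 : ℂ) ∈ Bd h := by
  intro u hu
  rw [ip_zero_r]
  exact hs.pos u hu

theorem bd_open : IsOpen (Bd h) := by
  rw [Metric.isOpen_iff]
  intro x hx
  have hc : IsCompact (Metric.sphere (0 : ℂ) 1) := isCompact_sphere 0 1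
  have hne : (Metric.sphere (0 : ℂ) 1).Nonempty := ⟨1, by simp⟩
  obtain ⟨a, ha, hmin⟩ := hc.exists_isMinOn hne
    (((sf_cont hs).sub (ip_cont_l x)).continuousOn)
  have ha' : ‖a‖ = 1 := by simpa using ha
  have hpos : 0 < h a - ip a x := by
    have := (mem_bd_iff hs x).mp hx a ha'
    linarith
  refine ⟨h a - ip a x, hpos, fun y hy => ?_⟩
  rw [mem_bd_iff hs]
  intro u hu
  have hm : u ∈ Metric.sphere (0 : ℂ) 1 := by simpa using hu
  have h1 : h a - ip a x ≤ h u - ip u x := hmin hm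
  have h2 : ip u y = ip u x + ip u (y - x) := by
    rw [ip_sub_r]; ring
  have h3 := ip_le_norm u (y - x)
  rw [hu, one_mul] at h3
  have h4 : ‖y - x‖ < h a - ip a x := by
    rw [← dist_eq_norm]
    exact hy
  linarith

theorem bd_convex : Convex ℝ (Bd h) := by
  intro x hx y hy a b ha hb hab u hu
  have h1 := hx u hu
  have h2 := hy u hu
  have e : ip u (a • x + b • y) = a * ip u x + b * ip u y := by
    rw [ip_add_r, Complex.real_smul, Complex.real_smul, ip_mul_r, ip_mul_r]
  rw [e]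
  rcases ha.eq_or_lt with h0 | h0
  · have hb1 : b = 1 := by linarith
    rw [← h0, hb1]
    linarith
  · have e2 : h u = a * h u + b * h u := by rw [← add_mul, hab, one_mul]
    rw [e2]
    exact add_lt_add_of_lt_of_le (mul_lt_mul_of_pos_left h1 h0)
      (mul_le_mul_of_nonneg_left h2.le hb)

theorem bd_dom : Dom (Bd h) := by
  refine ⟨bd_open hs, bd_convex hs, ?_, ⟨0, bd_zero hs⟩⟩
  obtain ⟨r, ρ, -, hb⟩ := sf_bounds hs
  refine (Metric.isBounded_closedBall (x := (0 : ℂ)) (r := ρ)).subset fun x hx => ?_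
  rw [Metric.mem_closedBall, dist_zero_right]
  by_cases h0 : x = 0
  · rw [h0, norm_zero]
    have := hb 1 (by simp)
    have h1 := hs.pos 1 one_ne_zero
    linarith
  · obtain ⟨v, hv, he, hp⟩ := unit_of h0
    have h1 := (mem_bd_iff hs x).mp hx v hv
    have h2 : ip v x = ‖x‖ := by
      conv_lhs => rw [← he]
      rw [ip_mul_r, ip_self, hv]
      ring
    rw [h2] at h1
    exact h1.le.trans (hb v hv).2

theorem bd_closure : closure (Bd h) = {x | ∀ u, ip u x ≤ h u} := by
  apply Set.Subset.antisymm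
  · have hcl : IsClosed {x | ∀ u, ip u x ≤ h u} := by
      have : {x | ∀ u, ip u x ≤ h u} = ⋂ u, {x | ip u x ≤ h u} := by
        ext x
        simp
      rw [this]
      exact isClosed_iInter fun u => isClosed_le (ip_cont_r u) continuous_const
    apply closure_minimal _ hcl
    intro x hx u
    by_cases hu : u = 0
    · rw [hu, ip_zero_l, sf_zero hs]
    · exact (hx u hu).le
  · intro x hx
    have hlim : Tendsto (fun n : ℕ => ((1 - 1 / ((n : ℝ) + 1) : ℝ) : ℂ) * x) atTop (𝓝 x) := by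
      have h1 : Tendsto (fun n : ℕ => (1 - 1 / ((n : ℝ) + 1) : ℝ)) atTop (𝓝 (1 - 0)) :=
        tendsto_const_nhds.sub tendsto_one_div_add_atTop_nhds_zero_nat
      have h2 := ((Complex.continuous_ofReal.tendsto _).comp h1).mul_const x
      simpa using h2
    refine mem_closure_of_tendsto hlim (Eventually.of_forall fun n => ?_)
    intro u hu
    rw [ip_mul_r]
    have h1 := hs.pos u hu
    have h2 := hx u
    have h3 : (0 : ℝ) < 1 / ((n : ℝ) + 1) := by positivity
    have h4 : 1 / ((n : ℝ) + 1) ≤ 1 := by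
      rw [div_le_one (by positivity)]
      have : (0 : ℝ) ≤ n := Nat.cast_nonneg n
      linarith
    have h5 : (1 - 1 / ((n : ℝ) + 1)) * ip u x ≤ (1 - 1 / ((n : ℝ) + 1)) * h u :=
      mul_le_mul_of_nonneg_left h2 (by linarith)
    nlinarith

theorem bd_scale (s : ℝ) (hs0 : 0 < s) :
    Bd (fun u => s * h u) = (fun x : ℂ => (s : ℂ) * x) '' Bd h := by
  have hsc : (s : ℂ) ≠ 0 := by exact_mod_cast hs0.ne'
  ext y
  constructor
  · intro hy
    refine ⟨((s⁻¹ : ℝ) : ℂ) * y, fun u hu => ?_, ?_⟩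
    · rw [ip_mul_r]
      have := hy u hu
      rw [inv_mul_lt_iff₀ hs0]
      exact this
    · show (s : ℂ) * (((s⁻¹ : ℝ) : ℂ) * y) = y
      push_cast
      field_simp
  · rintro ⟨x, hx, rfl⟩ u hu
    show ip u ((s : ℂ) * x) < s * h u
    rw [ip_mul_r]
    exact mul_lt_mul_of_pos_left (hx u hu) hs0

end basic

/-- every bounded convex domain which contains the origin has a support function -/
theorem exists_sf (Ω : Set ℂ) (hΩ : Dom Ω) (h0 : (0 : ℂ) ∈ Ω) : ∃ h, SF h ∧ Ω = Bd h := by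
  obtain ⟨R, hR⟩ := hΩ.bd.subset_closedBall 0
  have hbd : ∀ u : ℂ, BddAbove ((fun x => ip u x) '' Ω) := by
    intro u
    refine ⟨‖u‖ * R, ?_⟩
    rintro _ ⟨x, hx, rfl⟩
    have h1 := hR hx
    rw [Metric.mem_closedBall, dist_zero_right] at h1
    exact (ip_le_norm u x).trans (mul_le_mul_of_nonneg_left h1 (norm_nonneg u))
  have hne : ∀ u : ℂ, ((fun x => ip u x) '' Ω).Nonempty := fun u => ⟨_, 0, h0, rfl⟩
  set h : ℂ → ℝ := fun u => sSup ((fun x => ip u x) '' Ω) with hh
  have hle : ∀ u, ∀ x ∈ Ω, ip u x ≤ h u := fun u x hx => le_csSup (hbd u) ⟨x, hx, rfl⟩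
  have hge : ∀ u c, (∀ x ∈ Ω, ip u x ≤ c) → h u ≤ c := by
    intro u c hc
    refine csSup_le (hne u) ?_
    rintro _ ⟨x, hx, rfl⟩
    exact hc x hx
  obtain ⟨r, hr, hball⟩ := Metric.isOpen_iff.mp hΩ.op 0 h0
  -- strict inequality
  have hstrict : ∀ u, u ≠ 0 → ∀ x ∈ Ω, ip u x < h u := by
    intro u hu x hx
    obtain ⟨δ, hδ, hb⟩ := Metric.isOpen_iff.mp hΩ.op x hx
    have hn : 0 < ‖u‖ := norm_pos_iff.mpr hu
    have hy : x + ((δ / (2 * ‖u‖) : ℝ) : ℂ) * u ∈ Ω := by
      apply hb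
      rw [Metric.mem_ball, dist_eq_norm, add_sub_cancel_left, norm_mul, Complex.norm_real,
        Real.norm_of_nonneg (by positivity)]
      have : δ / (2 * ‖u‖) * ‖u‖ = δ / 2 := by field_simp
      rw [this]
      linarith
    have h1 := hle u _ hy
    rw [ip_add_r, ip_mul_r, ip_self] at h1
    have h2 : 0 < δ / (2 * ‖u‖) * ‖u‖ ^ 2 := by positivity
    linarith
  refine ⟨h, ⟨⟨?_, ?_⟩, ?_⟩, ?_⟩
  · intro a b
    apply hge
    intro x hx
    rw [ip_add_l]
    exact add_le_add (hle a x hx) (hle b x hx)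
  · intro c a hc
    apply le_antisymm
    · apply hge
      intro x hx
      rw [ip_mul_l]
      exact mul_le_mul_of_nonneg_left (hle a x hx) hc
    · rcases hc.eq_or_lt with hc0 | hc0
      · rw [← hc0, zero_mul]
        have := hle (((0 : ℝ) : ℂ) * a) 0 h0
        rw [ip_zero_r] at this
        exact this
      · rw [← le_div_iff₀' hc0]
        apply hge
        intro x hx
        rw [le_div_iff₀' hc0]
        have := hle ((c : ℂ) * a) x hx
        rwa [ip_mul_l] at this
  · intro u hu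
    have := hstrict u hu 0 h0
    rwa [ip_zero_r] at this
  · apply Set.Subset.antisymm
    · intro x hx u hu
      exact hstrict u hu x hx
    · intro x hx
      by_contra hxn
      obtain ⟨f, hf⟩ := geometric_hahn_banach_open_point hΩ.cv hΩ.op hxn
      set w : ℂ := (f 1 : ℂ) + (f I : ℂ) * I with hw
      have hfw : ∀ z : ℂ, f z = ip w z := by
        intro z
        have e1 : z = z.re • (1 : ℂ) + z.im • I := by
          rw [Complex.real_smul, Complex.real_smul, mul_one]
          exact (Complex.re_add_im z).symm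
        conv_lhs => rw [e1]
        rw [map_add, map_smul, map_smul]
        simp [ip, hw]
        ring
      have hw0 : w ≠ 0 := by
        intro h1
        have := hf 0 h0
        rw [hfw, hfw, h1, ip_zero_l, ip_zero_l] at this
        exact lt_irrefl _ this
      have h1 := hx w hw0
      have h2 : h w ≤ ip w x := by
        apply hge
        intro y hy
        rw [← hfw, ← hfw]
        exact (hf y hy).le
      linarith

/-- module SFB -/
theorem sfb : SfbStatement := by
  refine ⟨fun k hk => ?_, fun k hk u => ?_, fun h hs => ⟨bd_dom hs, bd_zero hs, bd_closure hs,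
    sf_bounds hs, bd_scale hs⟩, exists_sf⟩
  · obtain ⟨-, hc, ⟨R, hR⟩, -⟩ := AEU.H69.sup k hk
    exact ⟨hc, R, fun u hu => by have := hR u; rwa [hu, mul_one] at this⟩
  · obtain ⟨p, hp, he⟩ := (AEU.H69.sup k hk).2.2.2 u
    exact ⟨p, he, hp⟩

end Pool.Agent.GB.H44
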