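import Pool.Agent.Helper62_GB.Stmt

/-!
Blaschke selection theorem in the plane, with a lower bound for the area.
-/

namespace Pool.Agent.GB.H44

open MeasureTheory Complex Filter Topology Metric TopologicalSpace
open Pool.Agent.GB
open scoped ENNReal NNReal

/-- a convex body as a nonempty compact set -/
def toNC (K : ConvexBody ℂ) : NonemptyCompacts ℂ := ⟨⟨K, K.isCompact⟩, K.nonempty⟩

theorem dist_toNC (K L : ConvexBody ℂ) : dist (toNC K) (toNC L) = dist K L := rfl

/-- a Hausdorff limit of convex sets is convex -/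
theorem convex_lim {K : ℕ → ConvexBody ℂ} {L : NonemptyCompacts ℂ}
    (h : Tendsto (fun j => toNC (K j)) atTop (𝓝 L)) : Convex ℝ (L : Set ℂ) := by
  intro x hx y hy a b ha hb hab
  have hfin : ∀ j, hausdorffEDist (L : Set ℂ) (K j : Set ℂ) ≠ ⊤ := fun j =>
    hausdorffEDist_ne_top_of_nonempty_of_bounded L.nonempty (K j).nonempty L.isCompact.isBounded
      (K j).isCompact.isBounded
  have hcl : IsClosed (L : Set ℂ) := L.isCompact.isClosed
  rw [hcl.mem_iff_infDist_zero L.nonempty]
  refine le_antisymm (le_of_forall_pos_le_add fun ε hε => ?_) infDist_nonneg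
  have h2 := (tendsto_iff_dist_tendsto_zero.1 h).eventually (gt_mem_nhds (half_pos hε))
  obtain ⟨j, hj⟩ := h2.exists
  have hj' : hausdorffDist (L : Set ℂ) (K j : Set ℂ) < ε / 2 := by
    rw [dist_comm] at hj
    exact hj
  obtain ⟨x', hx', hxx⟩ := exists_dist_lt_of_hausdorffDist_lt hx hj' (hfin j)
  obtain ⟨y', hy', hyy⟩ := exists_dist_lt_of_hausdorffDist_lt hy hj' (hfin j)
  have hz : a • x' + b • y' ∈ (K j : Set ℂ) := (K j).convex hx' hy' ha hb hab
  obtain ⟨z, hz1, hz2⟩ := exists_dist_lt_of_hausdorffDist_lt' hz hj' (hfin j)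
  have h3 : dist (a • x + b • y) (a • x' + b • y') ≤ ε / 2 := by
    rw [dist_eq_norm] at hxx hyy ⊢
    have e : a • x + b • y - (a • x' + b • y') = a • (x - x') + b • (y - y') := by
      simp only [smul_sub]; ring
    rw [e]
    refine (norm_add_le _ _).trans ?_
    rw [norm_smul, norm_smul, Real.norm_of_nonneg ha, Real.norm_of_nonneg hb]
    have : a * ‖x - x'‖ + b * ‖y - y'‖ ≤ a * (ε / 2) + b * (ε / 2) := by
      gcongr
    refine this.trans (le_of_eq ?_)
    rw [← add_mul, hab, one_mul]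
  calc infDist (a • x + b • y) (L : Set ℂ) ≤ dist (a • x + b • y) z := infDist_le_dist_of_mem hz1
    _ ≤ dist (a • x + b • y) (a • x' + b • y') + dist (a • x' + b • y') z := dist_triangle _ _ _
    _ ≤ ε / 2 + ε / 2 := by
        have : dist (a • x' + b • y') z ≤ ε / 2 := by rw [dist_comm]; exact hz2.le
        linarith
    _ = 0 + ε := by ring

theorem bla : BlaStatement := by
  intro R v0 hv0 K hK hvol
  have hc : IsCompact {L : NonemptyCompacts ℂ | (L : Set ℂ) ⊆ closedBall (0 : ℂ) R} :=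
    NonemptyCompacts.isCompact_subsets_of_isCompact (isCompact_closedBall _ _)
  obtain ⟨L, -, φ, hφ, hL⟩ := hc.tendsto_subseq (x := fun j => toNC (K j)) (fun j => hK j)
  have hL' : Tendsto (fun j => toNC (K (φ j))) atTop (𝓝 L) := hL
  have hcv : Convex ℝ (L : Set ℂ) := convex_lim hL'
  let L' : ConvexBody ℂ := ⟨L, hcv, L.isCompact, L.nonempty⟩
  have hLL : toNC L' = L := rfl
  have hT : Tendsto (fun j => K (φ j)) atTop (𝓝 L') := by
    rw [tendsto_iff_dist_tendsto_zero] at hL' ⊢
    refine hL'.congr fun j => ?_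
    rw [← hLL, dist_toNC]
  refine ⟨L', φ, hφ, hT, ?_⟩
  by_contra hne
  rw [Set.not_nonempty_iff_eq_empty] at hne
  have hv : volume (L : Set ℂ) = 0 := by
    have h1 := hcv.addHaar_frontier volume
    have h2 : frontier (L : Set ℂ) = (L : Set ℂ) := by
      have h3 : interior (L : Set ℂ) = ∅ := hne
      rw [frontier, h3, L.isCompact.isClosed.closure_eq, Set.sdiff_empty]
    rwa [h2] at h1
  have h4 := tendsto_measure_cthickening_of_isCompact (μ := (volume : Measure ℂ)) L.isCompact
  rw [hv] at h4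
  have h40 : Tendsto (fun r => volume (cthickening r (L : Set ℂ))) (𝓝[>] (0 : ℝ)) (𝓝 0) :=
    h4.mono_left nhdsWithin_le_nhds
  have h5 := h40.eventually (gt_mem_nhds (ENNReal.ofReal_pos.2 hv0))
  obtain ⟨δ, hδ1, hδ2⟩ := (h5.and self_mem_nhdsWithin).exists
  have hδ : 0 < δ := hδ2
  have h6 := (tendsto_iff_dist_tendsto_zero.1 hL').eventually (gt_mem_nhds hδ)
  obtain ⟨j, hj⟩ := h6.exists
  have h7 : (K (φ j) : Set ℂ) ⊆ cthickening δ (L : Set ℂ) := by
    intro x hx
    have hfin : hausdorffEDist (K (φ j) : Set ℂ) (L : Set ℂ) ≠ ⊤ :=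
      hausdorffEDist_ne_top_of_nonempty_of_bounded (K (φ j)).nonempty L.nonempty
        (K (φ j)).isCompact.isBounded L.isCompact.isBounded
    obtain ⟨y, hy1, hy2⟩ := exists_dist_lt_of_hausdorffDist_lt hx
      (show hausdorffDist (K (φ j) : Set ℂ) (L : Set ℂ) < δ from hj) hfin
    exact mem_cthickening_of_dist_le x y δ _ hy1 hy2.le
  have h8 : volume (K (φ j) : Set ℂ) < ENNReal.ofReal v0 := (measure_mono h7).trans_lt hδ1
  have h9 := hvol (φ j)
  have h10 : (volume (K (φ j) : Set ℂ)).toReal < v0 := by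
    rw [← ENNReal.toReal_ofReal hv0.le]
    exact (ENNReal.toReal_lt_toReal (ne_top_of_lt h8) ENNReal.ofReal_ne_top).2 h8
  linarith

end Pool.Agent.GB.H44
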